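import Mathlib
import Pool.Agent.W_cbb711b.Final

/-!
# Finiteness of maximal Cohen-Macaulay classes in the divisor class group

For every complete Noetherian local Cohen-Macaulay ring satisfying Serre's condition `(R_2)`
(any residue field, any dimension, equal or mixed characteristic) there are only finitely many
isomorphism classes of nonzero ideals which are maximal Cohen-Macaulay modules.
-/

set_option autoImplicit false

namespace Pool.Agent.Results.MP_cbb711_ag.FiniteMCMClasses

theorem result :
    ∀ (R : Type) [CommRing R] [IsLocalRing R] [IsNoetherianRing R],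
      IsAdicComplete (IsLocalRing.maximalIdeal R) R →
      (∃ rs : List R, (∀ r ∈ rs, r ∈ IsLocalRing.maximalIdeal R) ∧
          RingTheory.Sequence.IsRegular R rs ∧
          (rs.length : WithBot ℕ∞) = ringKrullDim R) →
      (∀ (p : Ideal R) [p.IsPrime], p.height ≤ 2 →
          ∃ s : Finset (Localization.AtPrime p),
            Ideal.span (s : Set (Localization.AtPrime p)) =
                IsLocalRing.maximalIdeal (Localization.AtPrime p) ∧
              (s.card : WithBot ℕ∞) ≤ ringKrullDim (Localization.AtPrime p)) →
      ∃ (n : ℕ) (J : Fin n → Ideal R),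
        ∀ I : Ideal R, I ≠ ⊥ →
          (∃ rs : List R, (∀ r ∈ rs, r ∈ IsLocalRing.maximalIdeal R) ∧
              RingTheory.Sequence.IsRegular (↥I) rs ∧
              (rs.length : WithBot ℕ∞) = ringKrullDim R) →
          ∃ j : Fin n, Nonempty (↥I ≃ₗ[R] ↥(J j)) := by
  intro R _ _ _ hR hCM h2
  exact Pool.Agent.W_cbb711.Final.finite_classes R hR hCM h2

end Pool.Agent.Results.MP_cbb711_ag.FiniteMCMClasses
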